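import Mathlib

/-! The cops and attacking robber game, on a graph, and the grids. Definitions for MP_cd85a3_co. -/

set_option autoImplicit false

namespace Pool.Agent.R888.AR

/-- The cops and attacking robber game on the graph `G`. It is the cops' turn, the cops which are
still in the game are the `i ∈ A`, at the vertices `c i`, and the robber is at `r`. `Win G A c r`
says that the cops can force a win: either some cop moves onto the vertex of the robber (`catch'`), or
the cops make a move after which every answer `r'` of the robber (to stay or to move to an adjacent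
vertex) is losing: if there are two or more cops at `r'` he is captured, and otherwise the cop at
`r'` (if any) is removed and the cops can force a win from the new position. -/
inductive Win {V ι : Type*} [DecidableEq V] (G : SimpleGraph V) :
    Finset ι → (ι → V) → V → Prop
  | catch' (A : Finset ι) (c : ι → V) (r : V) (i : ι) (hi : i ∈ A)
      (h : c i = r ∨ G.Adj (c i) r) : Win G A c r
  | step (A : Finset ι) (c : ι → V) (r : V) (c' : ι → V)
      (hmove : ∀ i ∈ A, c' i = c i ∨ G.Adj (c i) (c' i))
      (h : ∀ r', r' = r ∨ G.Adj r r' → (A.filter fun i => c' i = r').card < 2 →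
        Win G (A.filter fun i => c' i ≠ r') c' r') : Win G A c r

/-- The attacking cop number `cc(G)`: the least number `k` of cops which have starting vertices such
that, wherever the robber starts, he is on the vertex of a cop or the cops can force a win. -/
noncomputable def cc {V : Type*} [DecidableEq V] (G : SimpleGraph V) : ℕ :=
  sInf {k | ∃ c : Fin k → V, ∀ r, (∃ i, c i = r) ∨ Win G Finset.univ c r}

/-- The grid `P_{m 0} □ ⋯ □ P_{m (n-1)}`: two vertices are adjacent if they are adjacent in one
coordinate and agree in the others. -/
def grid {n : ℕ} (m : Fin n → ℕ) : SimpleGraph (∀ i, Fin (m i)) where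
  Adj u v := ∃ i, (SimpleGraph.pathGraph (m i)).Adj (u i) (v i) ∧ ∀ j, j ≠ i → u j = v j
  symm := ⟨fun _ _ ⟨i, h, h'⟩ => ⟨i, h.symm, fun j hj => (h' j hj).symm⟩⟩
  loopless := ⟨fun _ ⟨_, h, _⟩ => h.ne rfl⟩

/-- The full answer. -/
def Statement : Prop :=
  ∀ (n : ℕ) (m : Fin n → ℕ), 1 ≤ n → (∀ i, 2 ≤ m i) →
    cc (grid m) = if n = 1 ∧ ∀ i, m i ≤ 3 then 1 else if n = 3 ∧ ∀ i, m i = 2 then 2
      else (n + 1) / 2 + 1

end Pool.Agent.R888.AR
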