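import Pool.Agent.R888.AR.Defs

/-! PART L of MP_cd85a3_co: the lower bound for the cops and attacking robber game on grids. -/

set_option autoImplicit false

namespace Pool.Agent.R888.AR

open Finset

theorem grid_adj {n : ℕ} {m : Fin n → ℕ} {u v : ∀ i, Fin (m i)} :
    (grid m).Adj u v ↔ ∃ i, ((u i).val + 1 = (v i).val ∨ (v i).val + 1 = (u i).val) ∧
      ∀ j, j ≠ i → u j = v j := by
  unfold grid
  simp only [SimpleGraph.pathGraph_adj]

/-- The coordinate sum changes by one along an edge. -/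
theorem sum_adj {n : ℕ} {m : Fin n → ℕ} {u v : ∀ i, Fin (m i)} (h : (grid m).Adj u v) :
    (∑ i, (u i).val) + 1 = ∑ i, (v i).val ∨ (∑ i, (v i).val) + 1 = ∑ i, (u i).val := by
  obtain ⟨i, hi, hj⟩ := grid_adj.mp h
  have hu : ∑ j, (u j).val = (u i).val + ∑ j ∈ univ.erase i, (u j).val :=
    (Finset.add_sum_erase univ (fun j => (u j).val) (mem_univ i)).symm
  have hv : ∑ j, (v j).val = (v i).val + ∑ j ∈ univ.erase i, (v j).val :=
    (Finset.add_sum_erase univ (fun j => (v j).val) (mem_univ i)).symm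
  have he : ∑ j ∈ univ.erase i, (u j).val = ∑ j ∈ univ.erase i, (v j).val :=
    Finset.sum_congr rfl fun j hjj => by rw [hj j (Finset.ne_of_mem_erase hjj)]
  omega

theorem no_triangle {n : ℕ} {m : Fin n → ℕ} {u v w : ∀ i, Fin (m i)} (h1 : (grid m).Adj u v)
    (h2 : (grid m).Adj v w) (h3 : (grid m).Adj u w) : False := by
  have := sum_adj h1
  have := sum_adj h2
  have := sum_adj h3
  omega

/-- A neighbour in each coordinate. -/
theorem exists_nbr {n : ℕ} {m : Fin n → ℕ} (hm : ∀ i, 2 ≤ m i) (r : ∀ i, Fin (m i)) (l : Fin n) :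
    ∃ w, (grid m).Adj r w ∧ w l ≠ r l ∧ ∀ j, j ≠ l → w j = r j := by
  have hml := hm l
  have hrl := (r l).isLt
  obtain ⟨x, hx⟩ : ∃ x : Fin (m l), (r l).val + 1 = x.val ∨ x.val + 1 = (r l).val := by
    by_cases h : (r l).val + 1 < m l
    · exact ⟨⟨(r l).val + 1, h⟩, Or.inl rfl⟩
    · refine ⟨⟨(r l).val - 1, by omega⟩, Or.inr ?_⟩
      show (r l).val - 1 + 1 = (r l).val
      omega
  refine ⟨Function.update r l x, ?_, ?_, ?_⟩
  · rw [grid_adj]
    refine ⟨l, ?_, ?_⟩
    · rw [Function.update_self]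
      exact hx
    · intro j hj
      rw [Function.update_of_ne hj]
  · rw [Function.update_self]
    intro h
    rw [h] at hx
    omega
  · intro j hj
    rw [Function.update_of_ne hj]

/-- A vertex `y ≠ r` which is adjacent to a neighbour of `r` differs from `r` in at most two
coordinates, among them the coordinate of the neighbour. -/
theorem diff_of_adj {n : ℕ} {m : Fin n → ℕ} {r w y : ∀ i, Fin (m i)} {l : Fin n}
    (hwl : w l ≠ r l) (hw : ∀ j, j ≠ l → w j = r j) (hy : (grid m).Adj y w) (hne : y ≠ r) :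
    y l ≠ r l ∧ (univ.filter fun j => y j ≠ r j).card ≤ 2 := by
  obtain ⟨l', h1, h2⟩ := grid_adj.mp hy
  constructor
  · intro h
    by_cases hll : l' = l
    · subst hll
      apply hne
      funext j
      by_cases hj : j = l'
      · rw [hj]; exact h
      · rw [h2 j hj, hw j hj]
    · exact hwl (by rw [← h2 l (fun h => hll h.symm), h])
  · have hsub : (univ.filter fun j => y j ≠ r j) ⊆ {l, l'} := by
      intro j hj
      rw [Finset.mem_filter] at hj
      rw [Finset.mem_insert, Finset.mem_singleton]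
      by_contra hcon
      push Not at hcon
      exact hj.2 (by rw [h2 j hcon.2, hw j hcon.1])
    exact (Finset.card_le_card hsub).trans Finset.card_le_two

/-- `c` is at distance at least two from `r`. -/
def Far {n : ℕ} {m : Fin n → ℕ} (c r : ∀ i, Fin (m i)) : Prop := c ≠ r ∧ ¬ (grid m).Adj c r

theorem L1 {n : ℕ} {m : Fin n → ℕ} (hm : ∀ i, 2 ≤ m i) {ι : Type*}
    (A : Finset ι) (c : ι → ∀ i, Fin (m i)) (r : ∀ i, Fin (m i)) (h : Win (grid m) A c r) :
    2 * A.card ≤ n + 1 → (∀ i ∈ A, Far (c i) r) → False := by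
  classical
  induction h with
  | catch' A c r i hi h =>
    intro _ hf
    exact (hf i hi).2 (h.resolve_left (hf i hi).1)
  | step A c r c' hmove h ih =>
    intro hcard hf
    -- no cop is at `r`
    have hr : ∀ i ∈ A, c' i ≠ r := by
      intro i hi h1
      rcases hmove i hi with h2 | h2
      · exact (hf i hi).1 (by rw [← h2, h1])
      · rw [h1] at h2
        exact (hf i hi).2 h2
    have hunsafe : ∀ r', (r' = r ∨ (grid m).Adj r r') →
        (A.filter fun i => c' i = r').card < 2 → ∃ i ∈ A, (grid m).Adj (c' i) r' := by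
      intro r' h1 h2
      by_contra hcon
      push Not at hcon
      refine ih r' h1 h2 ?_ ?_
      · have := Finset.card_filter_le A (fun i => c' i ≠ r')
        omega
      · intro i hi
        rw [Finset.mem_filter] at hi
        exact ⟨hi.2, hcon i hi.1⟩
    obtain ⟨i0, hi0, hi0r⟩ := hunsafe r (Or.inl rfl) (by
      rw [Finset.filter_eq_empty_iff.mpr (fun i hi => hr i hi)]
      simp)
    choose w hw1 hw2 hw3 using exists_nbr hm r
    have hwinj : Function.Injective w := by
      intro l l' hll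
      by_contra hne
      exact hw2 l (by rw [hll]; exact hw3 l' l hne)
    set N1 := A.filter fun i => (grid m).Adj (c' i) r with hN1
    set N2 := A.filter fun i => ¬ (grid m).Adj (c' i) r with hN2
    have hN : N1.card + N2.card = A.card := Finset.card_filter_add_card_filter_not _
    have hN1pos : 1 ≤ N1.card := Finset.card_pos.mpr ⟨i0, Finset.mem_filter.mpr ⟨hi0, hi0r⟩⟩
    set S1 := univ.filter fun l : Fin n => 2 ≤ (A.filter fun i => c' i = w l).card with hS1
    set S2 := univ.filter fun l : Fin n => ∃ i ∈ A, (grid m).Adj (c' i) (w l) with hS2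
    have hcov : n ≤ S1.card + S2.card := by
      have h1 : (univ : Finset (Fin n)) ⊆ S1 ∪ S2 := by
        intro l _
        rw [Finset.mem_union, hS1, hS2, Finset.mem_filter, Finset.mem_filter]
        by_cases h2 : 2 ≤ (A.filter fun i => c' i = w l).card
        · exact Or.inl ⟨mem_univ l, h2⟩
        · exact Or.inr ⟨mem_univ l, hunsafe (w l) (Or.inr (hw1 l)) (by omega)⟩
      have h2 := (Finset.card_le_card h1).trans (Finset.card_union_le S1 S2)
      rwa [Finset.card_univ, Fintype.card_fin] at h2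
    have hS1le : 2 * S1.card ≤ N1.card := by
      have h1 : (S1.biUnion fun l => A.filter fun i => c' i = w l) ⊆ N1 := by
        intro i hi
        rw [Finset.mem_biUnion] at hi
        obtain ⟨l, _, hl⟩ := hi
        rw [Finset.mem_filter] at hl
        rw [hN1, Finset.mem_filter, hl.2]
        exact ⟨hl.1, (hw1 l).symm⟩
      have h2 : (S1.biUnion fun l => A.filter fun i => c' i = w l).card
          = ∑ l ∈ S1, (A.filter fun i => c' i = w l).card := by
        apply Finset.card_biUnion
        intro l _ l' _ hll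
        show Disjoint (A.filter fun i => c' i = w l) (A.filter fun i => c' i = w l')
        rw [Finset.disjoint_left]
        intro i hi hi'
        rw [Finset.mem_filter] at hi hi'
        exact hll (hwinj (by rw [← hi.2, ← hi'.2]))
      have h3 : S1.card * 2 ≤ ∑ l ∈ S1, (A.filter fun i => c' i = w l).card := by
        rw [← smul_eq_mul]
        apply Finset.card_nsmul_le_sum
        intro l hl
        exact (Finset.mem_filter.mp hl).2
      have h4 := Finset.card_le_card h1
      omega
    have hS2le : S2.card ≤ 2 * N2.card := by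
      have h1 : S2 ⊆ N2.biUnion fun i => univ.filter fun l => (grid m).Adj (c' i) (w l) := by
        intro l hl
        rw [hS2, Finset.mem_filter] at hl
        obtain ⟨_, i, hi, hil⟩ := hl
        rw [Finset.mem_biUnion]
        refine ⟨i, ?_, Finset.mem_filter.mpr ⟨mem_univ l, hil⟩⟩
        rw [hN2, Finset.mem_filter]
        exact ⟨hi, fun hadj => no_triangle hil (hw1 l).symm hadj⟩
      refine (Finset.card_le_card h1).trans (Finset.card_biUnion_le.trans ?_)
      rw [mul_comm, ← smul_eq_mul]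
      apply Finset.sum_le_card_nsmul
      intro i hi
      rw [hN2, Finset.mem_filter] at hi
      by_cases hex : ∃ l, (grid m).Adj (c' i) (w l)
      · obtain ⟨l0, hl0⟩ := hex
        refine (Finset.card_le_card ?_).trans
          (diff_of_adj (hw2 l0) (hw3 l0) hl0 (hr i hi.1)).2
        intro l hl
        rw [Finset.mem_filter] at hl ⊢
        exact ⟨mem_univ l, (diff_of_adj (hw2 l) (hw3 l) hl.2 (hr i hi.1)).1⟩
      · rw [Finset.filter_eq_empty_iff.mpr (fun l _ hl => hex ⟨l, hl⟩)]
        simp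
    omega

theorem no_win_of_far {n : ℕ} {m : Fin n → ℕ} (hm : ∀ i, 2 ≤ m i) {k : ℕ} (hk : 2 * k ≤ n + 1)
    (hfar : ∀ c : Fin k → ∀ i, Fin (m i), ∃ r, ∀ i, Far (c i) r) :
    ¬ ∃ c : Fin k → (∀ i, Fin (m i)), ∀ r, (∃ i, c i = r) ∨ Win (grid m) Finset.univ c r := by
  rintro ⟨c, hc⟩
  obtain ⟨r, hr⟩ := hfar c
  rcases hc r with ⟨i, hi⟩ | h
  · exact (hr i).1 hi
  · exact L1 hm univ c r h (by rw [Finset.card_univ, Fintype.card_fin]; exact hk)
      (fun i _ => hr i)

/-! Counting: closed neighbourhoods. -/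

theorem card_closed_nbhd {n : ℕ} {m : Fin n → ℕ} (v : ∀ i, Fin (m i))
    [DecidableRel (grid m).Adj] :
    (univ.filter fun u => u = v ∨ (grid m).Adj v u).card ≤ 1 + ∑ l, min 2 (m l - 1) := by
  classical
  have hsub : (univ.filter fun u => u = v ∨ (grid m).Adj v u) ⊆
      {v} ∪ univ.biUnion fun l => (univ.filter fun x : Fin (m l) =>
        (v l).val + 1 = x.val ∨ x.val + 1 = (v l).val).image fun x => Function.update v l x := by
    intro u hu
    rw [Finset.mem_filter] at hu
    rw [Finset.mem_union, Finset.mem_singleton]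
    rcases hu.2 with h | h
    · exact Or.inl h
    · right
      obtain ⟨l, h1, h2⟩ := grid_adj.mp h
      rw [Finset.mem_biUnion]
      refine ⟨l, mem_univ l, ?_⟩
      rw [Finset.mem_image]
      refine ⟨u l, Finset.mem_filter.mpr ⟨mem_univ _, h1⟩, ?_⟩
      funext j
      by_cases hj : j = l
      · subst hj
        rw [Function.update_self]
      · rw [Function.update_of_ne hj, h2 j hj]
  refine (Finset.card_le_card hsub).trans ((Finset.card_union_le _ _).trans ?_)
  rw [Finset.card_singleton]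
  refine Nat.add_le_add_left (Finset.card_biUnion_le.trans (Finset.sum_le_sum fun l _ => ?_)) 1
  refine Finset.card_image_le.trans ?_
  have hv := (v l).isLt
  apply le_min
  · -- at most two
    have hinj : ∀ x ∈ (univ.filter fun x : Fin (m l) =>
        (v l).val + 1 = x.val ∨ x.val + 1 = (v l).val),
        x.val ∈ ({(v l).val + 1, (v l).val - 1} : Finset ℕ) := by
      intro x hx
      rw [Finset.mem_filter] at hx
      rw [Finset.mem_insert, Finset.mem_singleton]
      rcases hx.2 with h | h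
      · left; omega
      · right; omega
    exact (Finset.card_le_card_of_injOn (fun x : Fin (m l) => x.val) hinj
      (fun a _ b _ h => Fin.ext h)).trans Finset.card_le_two
  · have h1 : (univ.filter fun x : Fin (m l) =>
        (v l).val + 1 = x.val ∨ x.val + 1 = (v l).val) ⊆ univ.erase (v l) := by
      intro x hx
      rw [Finset.mem_filter] at hx
      rw [Finset.mem_erase]
      refine ⟨fun h => ?_, mem_univ x⟩
      rw [h] at hx
      omega
    have h2 := Finset.card_le_card h1
    rwa [Finset.card_erase_of_mem (mem_univ _), Finset.card_univ, Fintype.card_fin] at h2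

theorem exists_far {n : ℕ} {m : Fin n → ℕ} {k : ℕ}
    (h : k * (1 + ∑ l, min 2 (m l - 1)) < ∏ l, m l)
    (c : Fin k → ∀ i, Fin (m i)) : ∃ r, ∀ i, Far (c i) r := by
  classical
  by_contra hcon
  push Not at hcon
  have hcov : (univ : Finset (∀ i, Fin (m i))) ⊆
      univ.biUnion fun i : Fin k => univ.filter fun u => u = c i ∨ (grid m).Adj (c i) u := by
    intro r _
    obtain ⟨i, hi⟩ := hcon r
    rw [Finset.mem_biUnion]
    refine ⟨i, mem_univ i, Finset.mem_filter.mpr ⟨mem_univ r, ?_⟩⟩
    by_contra h1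
    push Not at h1
    exact hi ⟨fun h2 => h1.1 h2.symm, h1.2⟩
  have h1 := (Finset.card_le_card hcov).trans Finset.card_biUnion_le
  rw [Finset.card_univ, Fintype.card_pi] at h1
  simp only [Fintype.card_fin] at h1
  have h2 : ∑ i : Fin k, (univ.filter fun u => u = c i ∨ (grid m).Adj (c i) u).card
      ≤ k * (1 + ∑ l, min 2 (m l - 1)) := by
    have h3 : ∑ i : Fin k, (univ.filter fun u => u = c i ∨ (grid m).Adj (c i) u).card
        ≤ (univ : Finset (Fin k)).card • (1 + ∑ l, min 2 (m l - 1)) :=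
      Finset.sum_le_card_nsmul _ _ _ fun i _ => card_closed_nbhd (c i)
    rwa [Finset.card_univ, Fintype.card_fin, smul_eq_mul] at h3
  omega

/-! Numerics. -/

theorem numeric_four (n : ℕ) (b : Fin (n + 4) → ℕ) (hb : ∀ i, b i = 1 ∨ b i = 2) :
    (n + 4 + 1) * (1 + ∑ i, b i) < 2 * ∏ i, (1 + b i) := by
  induction n with
  | zero =>
    show (0 + 4 + 1) * (1 + ∑ i : Fin 4, b i) < 2 * ∏ i : Fin 4, (1 + b i)
    rw [Fin.sum_univ_four, Fin.prod_univ_four]
    rcases hb 0 with h0 | h0 <;> rcases hb 1 with h1 | h1 <;> rcases hb 2 with h2 | h2 <;>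
      rcases hb 3 with h3 | h3 <;> rw [h0, h1, h2, h3] <;> norm_num
  | succ n ih =>
    have h := ih (fun i => b i.succ) (fun i => hb i.succ)
    show (n + 1 + 4 + 1) * (1 + ∑ i : Fin (n + 4 + 1), b i) < 2 * ∏ i : Fin (n + 4 + 1), (1 + b i)
    rw [Fin.sum_univ_succ, Fin.prod_univ_succ]
    have hS : n + 4 ≤ ∑ i : Fin (n + 4), b i.succ := by
      have h1 : ∑ _i : Fin (n + 4), 1 ≤ ∑ i : Fin (n + 4), b i.succ :=
        Finset.sum_le_sum fun i _ => by rcases hb i.succ with h | h <;> omega
      simpa using h1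
    set S := ∑ i : Fin (n + 4), b i.succ with hSdef
    set P := ∏ i : Fin (n + 4), (1 + b i.succ) with hPdef
    rcases hb 0 with h0 | h0
    · rw [h0]
      nlinarith
    · rw [h0]
      nlinarith

theorem numeric {n : ℕ} {m : Fin n → ℕ} (hn : 1 ≤ n) (hm : ∀ i, 2 ≤ m i)
    (h1 : ¬ (n = 1 ∧ ∀ i, m i ≤ 3)) (h3 : ¬ (n = 3 ∧ ∀ i, m i = 2)) {k : ℕ}
    (hk : 2 * k ≤ n + 1) : k * (1 + ∑ l, min 2 (m l - 1)) < ∏ l, m l := by
  have hb : ∀ i, min 2 (m i - 1) = 1 ∨ min 2 (m i - 1) = 2 := by
    intro i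
    have := hm i
    omega
  have hbm : ∀ i, 1 + min 2 (m i - 1) ≤ m i := by
    intro i
    have := hm i
    omega
  have hprod : ∏ l, (1 + min 2 (m l - 1)) ≤ ∏ l, m l :=
    Finset.prod_le_prod' fun i _ => hbm i
  rcases (by omega : n = 1 ∨ n = 2 ∨ n = 3 ∨ n = (n - 4) + 4) with h | h | h | h
  · subst h
    rw [Fin.sum_univ_one, Fin.prod_univ_one]
    have h4 : 4 ≤ m 0 := by
      by_contra hlt
      apply h1
      refine ⟨rfl, fun i => ?_⟩
      have : i = 0 := Subsingleton.elim _ _
      subst this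
      omega
    have : k ≤ 1 := by omega
    have h5 : min 2 (m 0 - 1) = 2 := by omega
    rw [h5]
    omega
  · subst h
    simp only [Fin.sum_univ_two, Fin.prod_univ_two] at hprod ⊢
    have hk1 : k ≤ 1 := by omega
    have hle : k * (1 + (min 2 (m 0 - 1) + min 2 (m 1 - 1)))
        ≤ 1 * (1 + (min 2 (m 0 - 1) + min 2 (m 1 - 1))) := Nat.mul_le_mul_right _ hk1
    rcases hb 0 with h0 | h0 <;> rcases hb 1 with h1' | h1' <;> rw [h0, h1'] at hprod hle ⊢ <;>
      omega
  · subst h
    have hk1 : k ≤ 2 := by omega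
    have hne : ¬ (m 0 = 2 ∧ m 1 = 2 ∧ m 2 = 2) := by
      rintro ⟨a, b, c⟩
      apply h3
      refine ⟨rfl, fun i => ?_⟩
      fin_cases i
      · exact a
      · exact b
      · exact c
    simp only [Fin.sum_univ_three, Fin.prod_univ_three] at hprod ⊢
    have hle : k * (1 + (min 2 (m 0 - 1) + min 2 (m 1 - 1) + min 2 (m 2 - 1)))
        ≤ 2 * (1 + (min 2 (m 0 - 1) + min 2 (m 1 - 1) + min 2 (m 2 - 1))) :=
      Nat.mul_le_mul_right _ hk1
    have e0 := hm 0
    have e1 := hm 1
    have e2 := hm 2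
    rcases hb 0 with h0 | h0 <;> rcases hb 1 with h1' | h1' <;> rcases hb 2 with h2' | h2' <;>
      first
      | (exfalso; apply hne; omega)
      | (rw [h0, h1', h2'] at hprod hle ⊢; omega)
  · generalize n - 4 = n' at h
    subst h
    have := numeric_four n' (fun i => min 2 (m i - 1)) hb
    have h5 : 2 * (k * (1 + ∑ l, min 2 (m l - 1))) ≤ (n' + 4 + 1) * (1 + ∑ l, min 2 (m l - 1)) := by
      rw [← mul_assoc]
      exact Nat.mul_le_mul_right _ hk
    omega

theorem lower (n : ℕ) (m : Fin n → ℕ) (hn : 1 ≤ n) (hm : ∀ i, 2 ≤ m i)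
    (h1 : ¬ (n = 1 ∧ ∀ i, m i ≤ 3)) (h3 : ¬ (n = 3 ∧ ∀ i, m i = 2)) (k : ℕ)
    (hk : 2 * k ≤ n + 1) :
    ¬ ∃ c : Fin k → (∀ i, Fin (m i)), ∀ r, (∃ i, c i = r) ∨ Win (grid m) Finset.univ c r :=
  no_win_of_far hm hk fun c => exists_far (numeric hn hm h1 h3 hk) c

theorem exc1 (m : Fin 1 → ℕ) (hm : ∀ i, 2 ≤ m i) (h : ∀ i, m i ≤ 3) : cc (grid m) = 1 := by
  have hm0 := hm 0
  have h0 := h 0
  have hone : 1 ∈ {k | ∃ c : Fin k → (∀ i, Fin (m i)), ∀ r, (∃ i, c i = r) ∨
      Win (grid m) Finset.univ c r} := by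
    refine ⟨fun _ i => ⟨1, by have := hm i; omega⟩, fun r => ?_⟩
    by_cases hr : (r 0).val = 1
    · left
      refine ⟨0, ?_⟩
      funext i
      have : i = 0 := Subsingleton.elim _ _
      subst this
      exact Fin.ext hr.symm
    · right
      refine Win.catch' _ _ _ 0 (mem_univ _) (Or.inr ?_)
      rw [grid_adj]
      refine ⟨0, ?_, fun j hj => absurd (Subsingleton.elim j 0) hj⟩
      have := (r 0).isLt
      show 1 + 1 = (r 0).val ∨ (r 0).val + 1 = 1
      omega
  apply le_antisymm
  · exact Nat.sInf_le hone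
  · by_contra hcon
    have hz : cc (grid m) = 0 := by omega
    have hmem := Nat.sInf_mem ⟨1, hone⟩
    have hz' : sInf {k | ∃ c : Fin k → (∀ i, Fin (m i)), ∀ r, (∃ i, c i = r) ∨
      Win (grid m) Finset.univ c r} = 0 := hz
    rw [hz'] at hmem
    exact no_win_of_far hm (k := 0) (by omega)
      (fun c => ⟨fun i => ⟨0, by have := hm i; omega⟩, fun i => i.elim0⟩) hmem

theorem exc3 (m : Fin 3 → ℕ) (hm : ∀ i, m i = 2) : cc (grid m) = 2 := by
  obtain rfl : m = fun _ => 2 := funext hm
  have htwo : 2 ∈ {k | ∃ c : Fin k → (Fin 3 → Fin 2), ∀ r, (∃ i, c i = r) ∨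
      Win (grid fun _ => 2) Finset.univ c r} := by
    refine ⟨fun j _ => j, fun r => ?_⟩
    have key : ∀ r : Fin 3 → Fin 2, ∃ j : Fin 2, (fun _ => j) = r ∨
        ∃ i, (j.val + 1 = (r i).val ∨ (r i).val + 1 = j.val) ∧ ∀ i', i' ≠ i → j = r i' := by
      decide
    obtain ⟨j, hj⟩ := key r
    rcases hj with h | h
    · exact Or.inl ⟨j, h⟩
    · exact Or.inr (Win.catch' _ _ _ j (mem_univ _) (Or.inr (grid_adj.mpr h)))
  have hno : ∀ k, k < 2 → ¬ ∃ c : Fin k → (Fin 3 → Fin 2), ∀ r, (∃ i, c i = r) ∨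
      Win (grid fun _ => 2) Finset.univ c r := by
    intro k hk
    refine no_win_of_far (m := fun _ => 2) (fun _ => le_rfl) (by omega) fun c => ?_
    rcases (by omega : k = 0 ∨ k = 1) with rfl | rfl
    · exact ⟨fun _ => 0, fun i => i.elim0⟩
    · refine ⟨fun i => (c 0 i) + 1, fun i => ?_⟩
      have hi : i = 0 := Subsingleton.elim _ _
      subst hi
      have hne : ∀ x : Fin 2, x ≠ x + 1 := by decide
      constructor
      · intro h
        exact hne (c 0 0) (congrFun h 0)
      · intro h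
        obtain ⟨l, _, hl⟩ := grid_adj.mp h
        obtain ⟨j, hj⟩ : ∃ j : Fin 3, j ≠ l := by
          by_cases hl0 : l = 0
          · exact ⟨1, by rw [hl0]; decide⟩
          · exact ⟨0, fun h => hl0 h.symm⟩
        exact hne (c 0 j) (hl j hj)
  apply le_antisymm
  · exact Nat.sInf_le htwo
  · by_contra hcon
    have hmem := Nat.sInf_mem (⟨2, htwo⟩ : {k | ∃ c : Fin k → (Fin 3 → Fin 2),
      ∀ r, (∃ i, c i = r) ∨ Win (grid fun _ => 2) Finset.univ c r}.Nonempty)
    exact hno _ (not_le.mp hcon) hmem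

end Pool.Agent.R888.AR
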