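import Pool.Agent.R888.AR.Defs

set_option autoImplicit false

/-! Upper bound for the attacking cop number of grids: `⌈n/2⌉ + 1` cops win. -/

namespace Pool.Agent.R888.AR

namespace U

open Finset

variable {n : ℕ} {m : Fin n → ℕ}

/-- difference vector -/
def df (r c : ∀ i, Fin (m i)) (l : Fin n) : ℤ := ((r l : ℕ) : ℤ) - ((c l : ℕ) : ℤ)

/-- distance -/
def ds (r c : ∀ i, Fin (m i)) : ℕ := ∑ l, (df r c l).natAbs

/-- a step `(l, e)` -/
def Mv (r r' : ∀ i, Fin (m i)) (l : Fin n) (e : ℤ) : Prop :=
  (e = 1 ∨ e = -1) ∧ ∀ k, ((r' k : ℕ) : ℤ) = ((r k : ℕ) : ℤ) + if k = l then e else 0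

lemma adj_iff {u v : ∀ i, Fin (m i)} : (grid m).Adj u v ↔ ∃ l e, Mv u v l e := by
  constructor
  · rintro ⟨l, h, h'⟩
    rw [SimpleGraph.pathGraph_adj] at h
    have hk : ∀ k, k ≠ l → ((v k : ℕ) : ℤ) = ((u k : ℕ) : ℤ) := fun k hk => by rw [h' k hk]
    rcases h with h | h
    · refine ⟨l, 1, Or.inl rfl, fun k => ?_⟩
      by_cases hkl : k = l
      · subst hkl
        rw [if_pos rfl, ← h]
        push_cast
        ring
      · rw [if_neg hkl, hk k hkl, add_zero]
    · refine ⟨l, -1, Or.inr rfl, fun k => ?_⟩
      by_cases hkl : k = l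
      · subst hkl
        rw [if_pos rfl, ← h]
        push_cast
        ring
      · rw [if_neg hkl, hk k hkl, add_zero]
  · rintro ⟨l, e, he, h⟩
    refine ⟨l, ?_, fun j hj => ?_⟩
    · rw [SimpleGraph.pathGraph_adj]
      have := h l
      rw [if_pos rfl] at this
      rcases he with rfl | rfl
      · left; omega
      · right; omega
    · have := h j
      rw [if_neg hj] at this
      apply Fin.ext
      omega

lemma df_rob {r r' c : ∀ i, Fin (m i)} {l : Fin n} {e : ℤ} (h : Mv r r' l e) (k : Fin n) :
    df r' c k = df r c k + if k = l then e else 0 := by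
  unfold df
  rw [h.2 k]
  ring

lemma df_cop {r c c' : ∀ i, Fin (m i)} {l : Fin n} {e : ℤ} (h : Mv c c' l e) (k : Fin n) :
    df r c' k = df r c k - if k = l then e else 0 := by
  unfold df
  rw [h.2 k]
  ring

lemma sum_upd (f f' : Fin n → ℤ) (l : Fin n) (h : ∀ k, k ≠ l → f' k = f k) :
    ∑ k, (f' k).natAbs + (f l).natAbs = ∑ k, (f k).natAbs + (f' l).natAbs := by
  rw [← Finset.add_sum_erase univ (fun k => (f' k).natAbs) (mem_univ l),
    ← Finset.add_sum_erase univ (fun k => (f k).natAbs) (mem_univ l)]
  have : ∑ k ∈ univ.erase l, (f' k).natAbs = ∑ k ∈ univ.erase l, (f k).natAbs :=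
    Finset.sum_congr rfl fun k hk => by rw [h k (Finset.ne_of_mem_erase hk)]
  rw [this]
  ring

lemma ds_congr {r r' c c' : ∀ i, Fin (m i)} (h : ∀ k, df r' c' k = df r c k) :
    ds r' c' = ds r c := by
  unfold ds
  exact Finset.sum_congr rfl fun k _ => by rw [h k]

/-- the robber moves towards the cop -/
lemma ds_toward {r r' c : ∀ i, Fin (m i)} {l : Fin n} {e : ℤ} (h : Mv r r' l e)
    (ht : df r c l * e < 0) : ds r' c + 1 = ds r c := by
  have h1 := sum_upd (df r c) (df r' c) l fun k hk => by rw [df_rob h, if_neg hk, add_zero]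
  have h2 : df r' c l = df r c l + e := by rw [df_rob h, if_pos rfl]
  unfold ds
  rcases h.1 with rfl | rfl <;> omega

/-- the robber does not move towards the cop -/
lemma ds_away {r r' c : ∀ i, Fin (m i)} {l : Fin n} {e : ℤ} (h : Mv r r' l e)
    (ht : 0 ≤ df r c l * e) : ds r' c = ds r c + 1 := by
  have h1 := sum_upd (df r c) (df r' c) l fun k hk => by rw [df_rob h, if_neg hk, add_zero]
  have h2 : df r' c l = df r c l + e := by rw [df_rob h, if_pos rfl]
  unfold ds
  rcases h.1 with rfl | rfl <;> omega

lemma ne_of_ds {r c : ∀ i, Fin (m i)} (h : 1 ≤ ds r c) : c ≠ r := by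
  rintro rfl
  have : ds c c = 0 := by
    unfold ds df
    simp
  omega

/-- unit vectors -/
lemma unit_of_ds {r x : ∀ i, Fin (m i)} (h : ds r x = 1) :
    ∃ l s, (s = 1 ∨ s = -1) ∧ ∀ k, df r x k = if k = l then s else 0 := by
  obtain ⟨l, hl⟩ : ∃ l, df r x l ≠ 0 := by
    by_contra hcon
    push Not at hcon
    have : ds r x = 0 := by
      unfold ds
      simp [hcon]
    omega
  have h1 : (df r x l).natAbs + ∑ k ∈ univ.erase l, (df r x k).natAbs = 1 := by
    rw [Finset.add_sum_erase univ (fun k => (df r x k).natAbs) (mem_univ l)]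
    exact h
  have h2 : ∀ k, k ≠ l → df r x k = 0 := by
    intro k hk
    have h3 : (df r x k).natAbs ≤ ∑ k ∈ univ.erase l, (df r x k).natAbs :=
      Finset.single_le_sum (f := fun k => (df r x k).natAbs) (fun _ _ => Nat.zero_le _)
        (Finset.mem_erase.2 ⟨hk, mem_univ k⟩)
    omega
  refine ⟨l, df r x l, by omega, fun k => ?_⟩
  by_cases hk : k = l
  · subst hk
    rw [if_pos rfl]
  · rw [if_neg hk, h2 k hk]

lemma adj_of_ds {r x : ∀ i, Fin (m i)} (h : ds r x = 1) : (grid m).Adj x r := by
  obtain ⟨l, s, hs, hk⟩ := unit_of_ds h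
  rw [adj_iff]
  refine ⟨l, s, hs, fun k => ?_⟩
  have := hk k
  unfold df at this
  rw [← this]
  ring

lemma mk_move (c : ∀ i, Fin (m i)) (l : Fin n) (e : ℤ) (he : e = 1 ∨ e = -1)
    (h0 : 0 ≤ ((c l : ℕ) : ℤ) + e) (h1 : ((c l : ℕ) : ℤ) + e < m l) : ∃ c', Mv c c' l e := by
  refine ⟨Function.update c l ⟨(((c l : ℕ) : ℤ) + e).toNat, by omega⟩, he, fun k => ?_⟩
  by_cases hk : k = l
  · subst hk
    rw [if_pos rfl, Function.update_self]
    show (((((c k : ℕ) : ℤ) + e).toNat : ℕ) : ℤ) = _
    rw [Int.toNat_of_nonneg h0]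
  · rw [if_neg hk, Function.update_of_ne hk, add_zero]

/-- A cop approaches the robber in coordinate `l`. -/
lemma reduce {r c : ∀ i, Fin (m i)} {l : Fin n} (h : df r c l ≠ 0) :
    ∃ c', (grid m).Adj c c' ∧ (∀ k, k ≠ l → df r c' k = df r c k) ∧
      df r c' l = df r c l - (df r c l).sign ∧ ds r c' + 1 = ds r c := by
  have hr : ((r l : ℕ) : ℤ) < m l := by exact_mod_cast (r l).2
  have hc : ((c l : ℕ) : ℤ) < m l := by exact_mod_cast (c l).2
  have hdf : df r c l = ((r l : ℕ) : ℤ) - ((c l : ℕ) : ℤ) := rfl
  have key : ∀ e : ℤ, (e = 1 ∨ e = -1) → e = (df r c l).sign → (∃ c', Mv c c' l e) →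
      ∃ c', (grid m).Adj c c' ∧ (∀ k, k ≠ l → df r c' k = df r c k) ∧
        df r c' l = df r c l - (df r c l).sign ∧ ds r c' + 1 = ds r c := by
    rintro e he hes ⟨c', hc'⟩
    have h2 : df r c' l = df r c l - e := by rw [df_cop hc', if_pos rfl]
    have h3 : ∀ k, k ≠ l → df r c' k = df r c k := fun k hk => by
      rw [df_cop hc', if_neg hk, sub_zero]
    refine ⟨c', adj_iff.2 ⟨l, e, hc'⟩, h3, by rw [h2, hes], ?_⟩
    have h1 := sum_upd (df r c) (df r c') l h3
    rw [h2] at h1
    have h4 : (df r c l - e).natAbs + 1 = (df r c l).natAbs := by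
      rcases lt_or_gt_of_ne h with h5 | h5
      · rw [hes, Int.sign_eq_neg_one_of_neg h5]
        omega
      · rw [hes, Int.sign_eq_one_of_pos h5]
        omega
    unfold ds
    omega
  rcases lt_or_gt_of_ne h with h5 | h5
  · exact key (-1) (Or.inr rfl) (Int.sign_eq_neg_one_of_neg h5).symm
      (mk_move c l (-1) (Or.inr rfl) (by omega) (by omega))
  · exact key 1 (Or.inl rfl) (Int.sign_eq_one_of_pos h5).symm
      (mk_move c l 1 (Or.inl rfl) (by omega) (by omega))

/-- A cop follows the robber. -/
lemma follow {r r' c : ∀ i, Fin (m i)} {l : Fin n} {e : ℤ} (h : Mv r r' l e)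
    (ht : 0 ≤ df r c l * e) : ∃ c', (grid m).Adj c c' ∧ ∀ k, df r' c' k = df r c k := by
  have h1 := h.2 l
  rw [if_pos rfl] at h1
  have hdf : df r c l = ((r l : ℕ) : ℤ) - ((c l : ℕ) : ℤ) := rfl
  have hr' : ((r' l : ℕ) : ℤ) < m l := by exact_mod_cast (r' l).2
  have hc : ((c l : ℕ) : ℤ) < m l := by exact_mod_cast (c l).2
  obtain ⟨c', hc'⟩ : ∃ c', Mv c c' l e := by
    apply mk_move c l e h.1
    · rcases h.1 with rfl | rfl <;> omega
    · rcases h.1 with rfl | rfl <;> omega
  refine ⟨c', adj_iff.2 ⟨l, e, hc'⟩, fun k => ?_⟩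
  rw [df_cop hc', df_rob h]
  ring

/-! ### Guards -/

/-- the number of guards -/
abbrev gd (n : ℕ) : ℕ := (n + 1) / 2

/-- the owner of a coordinate -/
def rho (l : Fin n) : Fin (gd n) := ⟨l.val / 2, by have := l.2; unfold gd; omega⟩

lemma rho_three {a b c : Fin n} (hab : a ≠ b) (hac : a ≠ c) (hbc : b ≠ c)
    (h1 : rho a = rho b) (h2 : rho a = rho c) : False := by
  have e1 : a.val / 2 = b.val / 2 := congrArg Fin.val h1
  have e2 : a.val / 2 = c.val / 2 := congrArg Fin.val h2
  have e3 : a.val ≠ b.val := fun h => hab (Fin.ext h)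
  have e4 : a.val ≠ c.val := fun h => hac (Fin.ext h)
  have e5 : b.val ≠ c.val := fun h => hbc (Fin.ext h)
  omega

/-- An uncovered own coordinate gives a droppable unit. -/
lemma droppable {r c : ∀ i, Fin (m i)} {l : Fin n} (hD : 2 ≤ ds r c) (hl : df r c l = 0) :
    ∃ k, df r c k ≠ 0 ∧ (rho k = rho l → 2 ≤ (df r c k).natAbs) := by
  by_contra hcon
  push Not at hcon
  have h1 : ∀ k, (df r c k).natAbs ≤ 1 := by
    intro k
    by_cases h : df r c k = 0
    · rw [h]; simp
    · have := (hcon k h).2
      omega
  have h2 : ds r c = (univ.filter fun k => df r c k ≠ 0).card := by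
    unfold ds
    rw [Finset.card_filter]
    refine Finset.sum_congr rfl fun k _ => ?_
    have := h1 k
    split_ifs with h
    · omega
    · push Not at h
      rw [h]; rfl
  rw [h2] at hD
  obtain ⟨a, ha, b, hb, hab⟩ := Finset.one_lt_card.1 hD
  rw [mem_filter] at ha hb
  have hla : l ≠ a := fun h => ha.2 (h ▸ hl)
  have hlb : l ≠ b := fun h => hb.2 (h ▸ hl)
  exact rho_three hla hlb hab (hcon a ha.2).1.symm (hcon b hb.2).1.symm

/-- weight of a coordinate -/
def w (M x : ℕ) (d : ℤ) : ℕ := if d = 0 then M else if 0 < d then M - 1 - x else x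

lemma w_le {M x : ℕ} (h : x < M) (d : ℤ) : w M x d ≤ M := by
  unfold w
  split_ifs <;> omega

/-- total weight -/
def Wt (c : Fin (gd n) → ∀ i, Fin (m i)) (r : ∀ i, Fin (m i)) : ℕ :=
  ∑ k, w (m k) (r k) (df r (c (rho k)) k)

lemma Wt_le (c : Fin (gd n) → ∀ i, Fin (m i)) (r : ∀ i, Fin (m i)) : Wt c r ≤ ∑ k, m k :=
  Finset.sum_le_sum fun k _ => w_le (r k).2 _

/-- The response of the guards to a move which is towards nobody. -/
lemma resp (c : Fin (gd n) → ∀ i, Fin (m i)) {r r' : ∀ i, Fin (m i)} {l : Fin n} {e : ℤ}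
    (h : Mv r r' l e) (hD : ∀ j, 2 ≤ ds r (c j)) (haw : ∀ j, 0 ≤ df r (c j) l * e) :
    ∃ c' : Fin (gd n) → ∀ i, Fin (m i), (∀ j, (grid m).Adj (c j) (c' j)) ∧
      (∀ j, ds r' (c' j) = ds r (c j)) ∧ Wt c' r' < Wt c r ∧
      ∀ j, (∀ k, df r' (c' j) k = df r (c j) k) ∨ (df r (c j) l = 0 ∧ df r' (c' j) l = e) := by
  have hf : ∀ j, ∃ c', (grid m).Adj (c j) c' ∧ ∀ k, df r' c' k = df r (c j) k :=
    fun j => follow h (haw j)
  choose cf hcf1 hcf2 using hf
  have hrk : ∀ k, k ≠ l → ((r' k : ℕ)) = (r k : ℕ) := by
    intro k hk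
    have := h.2 k
    rw [if_neg hk, add_zero] at this
    exact_mod_cast this
  have hrl := h.2 l
  rw [if_pos rfl] at hrl
  have hr'l : (r' l : ℕ) < m l := (r' l).2
  by_cases h0 : df r (c (rho l)) l = 0
  · obtain ⟨q, hq0, hq⟩ := droppable (hD (rho l)) h0
    have hql : q ≠ l := fun hc => hq0 (hc ▸ h0)
    have hq' : df r' (c (rho l)) q = df r (c (rho l)) q := by
      rw [df_rob h, if_neg hql, add_zero]
    obtain ⟨ct, hct1, hct2, hct3, hct4⟩ := reduce (r := r') (c := c (rho l)) (l := q)
      (by rw [hq']; exact hq0)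
    have hctl : df r' ct l = e := by
      rw [hct2 l hql.symm, df_rob h, if_pos rfl, h0, zero_add]
    have he0 : e ≠ 0 := by rcases h.1 with rfl | rfl <;> decide
    refine ⟨fun j => if j = rho l then ct else cf j, ?_, ?_, ?_, ?_⟩
    · intro j
      show (grid m).Adj (c j) (if j = rho l then ct else cf j)
      split_ifs with hj
      · rw [hj]; exact hct1
      · exact hcf1 j
    · intro j
      show ds r' (if j = rho l then ct else cf j) = _
      split_ifs with hj
      · rw [hj]
        have := ds_away h (haw (rho l))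
        omega
      · exact ds_congr (hcf2 j)
    · unfold Wt
      apply Finset.sum_lt_sum
      · intro k _
        show w (m k) (r' k) (df r' (if rho k = rho l then ct else cf (rho k)) k) ≤ _
        split_ifs with hk
        · by_cases hkl : k = l
          · subst hkl
            rw [h0]
            have h1 : w (m k) (r k) 0 = m k := by simp [w]
            rw [h1]
            exact w_le hr'l _
          · rw [hrk k hkl]
            by_cases hkq : k = q
            · subst hkq
              rw [hct3, hq']
              have h2 := hq hk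
              rw [hk]
              unfold w
              rcases lt_or_gt_of_ne hq0 with h5 | h5
              · rw [Int.sign_eq_neg_one_of_neg h5]
                rw [if_neg (by omega), if_neg (by omega), if_neg (by omega), if_neg (by omega)]
              · rw [Int.sign_eq_one_of_pos h5]
                rw [if_neg (by omega), if_pos (by omega), if_neg (by omega), if_pos (by omega)]
            · rw [hct2 k hkq, df_rob h, if_neg hkl, add_zero, hk]
        · have hkl : k ≠ l := fun hc => hk (by rw [hc])
          rw [hcf2, hrk k hkl]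
      · refine ⟨l, mem_univ _, ?_⟩
        show w (m l) (r' l) (df r' (if rho l = rho l then ct else cf (rho l)) l) < _
        rw [if_pos rfl, hctl, h0]
        have h1 : w (m l) (r l) 0 = m l := by simp [w]
        rw [h1]
        unfold w
        rw [if_neg he0]
        split_ifs <;> omega
    · intro j
      show (∀ k, df r' (if j = rho l then ct else cf j) k = df r (c j) k) ∨
        (df r (c j) l = 0 ∧ df r' (if j = rho l then ct else cf j) l = e)
      split_ifs with hj
      · right
        rw [hj]
        exact ⟨h0, hctl⟩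
      · left
        exact hcf2 j
  · refine ⟨cf, hcf1, fun j => ds_congr (hcf2 j), ?_, fun j => Or.inl (hcf2 j)⟩
    unfold Wt
    apply Finset.sum_lt_sum
    · intro k _
      rw [hcf2]
      by_cases hkl : k = l
      · subst hkl
        have := haw (rho k)
        unfold w
        rcases h.1 with rfl | rfl
        · rw [if_neg h0, if_neg h0]
          split_ifs <;> omega
        · rw [if_neg h0, if_neg h0]
          split_ifs <;> omega
      · rw [hrk k hkl]
    · refine ⟨l, mem_univ _, ?_⟩
      rw [hcf2]
      have := haw (rho l)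
      unfold w
      rcases h.1 with rfl | rfl
      · rw [if_neg h0, if_neg h0, if_pos (by omega), if_pos (by omega)]
        omega
      · rw [if_neg h0, if_neg h0, if_neg (by omega), if_neg (by omega)]
        omega

/-! ### The game -/

/-- all cops: the guards and the extra cop -/
def full (c : Fin (gd n) → ∀ i, Fin (m i)) (x : ∀ i, Fin (m i)) :
    Fin (gd n + 1) → ∀ i, Fin (m i) :=
  Fin.snoc (α := fun _ => ∀ i, Fin (m i)) c x

lemma full_cast (c : Fin (gd n) → ∀ i, Fin (m i)) (x : ∀ i, Fin (m i)) (j : Fin (gd n)) :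
    full c x j.castSucc = c j := by
  unfold full
  rw [Fin.snoc_castSucc]

lemma full_last (c : Fin (gd n) → ∀ i, Fin (m i)) (x : ∀ i, Fin (m i)) :
    full c x (Fin.last _) = x := by
  unfold full
  rw [Fin.snoc_last]

/-- winning position at the robber's turn -/
def WR (f : Fin (gd n + 1) → ∀ i, Fin (m i)) (r : ∀ i, Fin (m i)) : Prop :=
  ∀ r', r' = r ∨ (grid m).Adj r r' → (univ.filter fun i => f i = r').card < 2 →
    Win (grid m) (univ.filter fun i => f i ≠ r') f r'

lemma win_of_adj {f : Fin (gd n + 1) → ∀ i, Fin (m i)} {r' : ∀ i, Fin (m i)}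
    (i : Fin (gd n + 1)) (h : ds r' (f i) = 1) :
    Win (grid m) (univ.filter fun i => f i ≠ r') f r' :=
  Win.catch' _ _ _ i (mem_filter.2 ⟨mem_univ _, ne_of_ds (by omega)⟩) (Or.inr (adj_of_ds h))

lemma win_of_WR {f f' : Fin (gd n + 1) → ∀ i, Fin (m i)} {r' : ∀ i, Fin (m i)}
    (hne : ∀ i, 1 ≤ ds r' (f i)) (hmv : ∀ i, f' i = f i ∨ (grid m).Adj (f i) (f' i))
    (h : WR f' r') : Win (grid m) (univ.filter fun i => f i ≠ r') f r' := by
  have h1 : (univ.filter fun i => f i ≠ r') = univ :=
    filter_true_of_mem fun i _ => ne_of_ds (hne i)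
  rw [h1]
  exact Win.step _ _ _ f' (fun i _ => hmv i) h

lemma forall_full {p : (∀ i, Fin (m i)) → Prop} {c : Fin (gd n) → ∀ i, Fin (m i)}
    {x : ∀ i, Fin (m i)} (h1 : ∀ j, p (c j)) (h2 : p x) : ∀ i, p (full c x i) := by
  intro i
  refine Fin.lastCases ?_ (fun j => ?_) i
  · rw [full_last]; exact h2
  · rw [full_cast]; exact h1 j

lemma forall_full2 {p : (∀ i, Fin (m i)) → (∀ i, Fin (m i)) → Prop}
    {c c' : Fin (gd n) → ∀ i, Fin (m i)} {x x' : ∀ i, Fin (m i)} (h1 : ∀ j, p (c j) (c' j))
    (h2 : p x x') : ∀ i, p (full c x i) (full c' x' i) := by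
  intro i
  refine Fin.lastCases ?_ (fun j => ?_) i
  · rw [full_last, full_last]; exact h2
  · rw [full_cast, full_cast]; exact h1 j

/-- Phase T: all guards are at distance two, the extra cop is adjacent to the robber and protected
by guard `z`. -/
lemma winT (z : Fin (gd n)) (N : ℕ) : ∀ (c : Fin (gd n) → ∀ i, Fin (m i)) (x r : ∀ i, Fin (m i)),
    Wt c r = N → (∀ j, ds r (c j) = 2) → ∀ (l0 : Fin n) (s : ℤ), (s = 1 ∨ s = -1) →
    (∀ k, df r x k = if k = l0 then s else 0) → 0 < df r (c z) l0 * s →
    WR (full c x) r := by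
  induction N using Nat.strong_induction_on with
  | _ N ih =>
    intro c x r hN hD l0 s hs hx hp r' hr' _
    have hx1 : ds r x = 1 := by
      unfold ds
      rw [Finset.sum_eq_single l0]
      · rw [hx, if_pos rfl]
        rcases hs with rfl | rfl <;> rfl
      · intro k _ hk
        rw [hx, if_neg hk]
        rfl
      · intro hk
        exact absurd (mem_univ _) hk
    rcases hr' with rfl | hadj
    · exact win_of_adj (Fin.last _) (by rw [full_last]; exact hx1)
    · obtain ⟨l, e, hmv⟩ := adj_iff.1 hadj
      by_cases ht : ∃ j, df r (c j) l * e < 0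
      · obtain ⟨j, hj⟩ := ht
        apply win_of_adj j.castSucc
        rw [full_cast]
        have := ds_toward hmv hj
        have := hD j
        omega
      · push Not at ht
        have hxe : 0 ≤ df r x l * e := by
          rw [hx]
          split_ifs with hl
          · subst hl
            have h1 := ht z
            rcases hs with rfl | rfl <;> rcases hmv.1 with rfl | rfl <;> omega
          · simp
        obtain ⟨c', h1, h2, h3, h4⟩ := resp c hmv (fun j => (hD j).ge) ht
        have hne : ∀ i, 1 ≤ ds r' (full c x i) := by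
          apply forall_full (p := fun y => 1 ≤ ds r' y)
          · intro j
            have := ds_away hmv (ht j)
            omega
          · have := ds_away hmv hxe
            omega
        rcases h4 z with h5 | ⟨h5, h6⟩
        · obtain ⟨x', hx'1, hx'2⟩ := follow hmv hxe
          refine win_of_WR (f' := full c' x') hne ?_
            (ih _ (by omega) c' x' r' rfl (fun j => by rw [h2, hD]) l0 s hs
              (fun k => by rw [hx'2, hx]) (by rw [h5]; exact hp))
          exact forall_full2 (p := fun y y' => y' = y ∨ (grid m).Adj y y')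
            (fun j => Or.inr (h1 j)) (Or.inr hx'1)
        · have hl : l0 ≠ l := by
            rintro rfl
            rw [h5, zero_mul] at hp
            exact absurd hp (lt_irrefl _)
          have h7 : df r' x l0 = s := by
            rw [df_rob hmv, if_neg hl, hx, if_pos rfl, add_zero]
          obtain ⟨x', hx'1, hx'2, hx'3, -⟩ := reduce (r := r') (c := x) (l := l0)
            (by rw [h7]; rcases hs with rfl | rfl <;> decide)
          refine win_of_WR (f' := full c' x') hne ?_
            (ih _ (by omega) c' x' r' rfl (fun j => by rw [h2, hD]) l e hmv.1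
              (fun k => ?_) ?_)
          · exact forall_full2 (p := fun y y' => y' = y ∨ (grid m).Adj y y')
              (fun j => Or.inr (h1 j)) (Or.inr hx'1)
          · by_cases hk : k = l0
            · subst hk
              rw [hx'3, h7, if_neg hl]
              rcases hs with rfl | rfl <;> decide
            · rw [hx'2 k hk, df_rob hmv, hx, if_neg hk, zero_add]
          · rw [h6]
            rcases hmv.1 with rfl | rfl <;> decide

/-- Phase D: all cops are at distance at least two, the extra cop is at the vertex of guard `z`. -/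
lemma winD (z : Fin (gd n)) (N : ℕ) : ∀ (c : Fin (gd n) → ∀ i, Fin (m i)) (r : ∀ i, Fin (m i)),
    (∑ j, ds r (c j)) * (∑ k, m k + 1) + Wt c r = N → (∀ j, 2 ≤ ds r (c j)) →
    WR (full c (c z)) r := by
  induction N using Nat.strong_induction_on with
  | _ N ih =>
    intro c r hN hD r' hr' _
    have hle : ∀ (c' : Fin (gd n) → ∀ i, Fin (m i)) (r' : ∀ i, Fin (m i)),
        (∀ j, ds r' (c' j) ≤ ds r (c j)) → (∃ j, ds r' (c' j) < ds r (c j)) →
        (∑ j, ds r' (c' j)) * (∑ k, m k + 1) + Wt c' r' < N := by
      intro c' r' ha hb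
      have h1 : ∑ j, ds r' (c' j) < ∑ j, ds r (c j) := by
        obtain ⟨j, hj⟩ := hb
        exact Finset.sum_lt_sum (fun j _ => ha j) ⟨j, mem_univ _, hj⟩
      have h2 := Wt_le c' r'
      rw [← hN]
      nlinarith [Nat.zero_le (Wt c r)]
    rcases hr' with rfl | hadj
    · by_cases hall : ∀ j, ds r' (c j) = 2
      · -- the extra cop drops a unit
        obtain ⟨q, hq⟩ : ∃ q, df r' (c z) q ≠ 0 := by
          by_contra hcon
          push Not at hcon
          have : ds r' (c z) = 0 := by
            unfold ds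
            simp [hcon]
          have := hD z
          omega
        obtain ⟨x', hx1, hx2, hx3, hx4⟩ := reduce hq
        have hx5 : ds r' x' = 1 := by
          have := hall z
          omega
        obtain ⟨l0, s, hs, hk⟩ := unit_of_ds hx5
        refine win_of_WR (f' := full c x') ?_ ?_ (winT z _ c x' r' rfl hall l0 s hs hk ?_)
        · exact forall_full (p := fun y => 1 ≤ ds r' y) (fun j => by have := hD j; omega)
            (by have := hD z; omega)
        · exact forall_full2 (p := fun y y' => y' = y ∨ (grid m).Adj y y')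
            (fun j => Or.inl rfl) (Or.inr hx1)
        · by_cases hl : l0 = q
          · subst hl
            have h1 := hk l0
            rw [if_pos rfl, hx3] at h1
            rcases lt_or_gt_of_ne hq with h5 | h5
            · rw [Int.sign_eq_neg_one_of_neg h5] at h1
              rcases hs with rfl | rfl <;> omega
            · rw [Int.sign_eq_one_of_pos h5] at h1
              rcases hs with rfl | rfl <;> omega
          · have h1 := hk l0
            rw [if_pos rfl, hx2 l0 hl] at h1
            rw [h1]
            rcases hs with rfl | rfl <;> decide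
      · push Not at hall
        obtain ⟨j0, hj0⟩ := hall
        have hex : ∀ j, ∃ c', (c' = c j ∨ (grid m).Adj (c j) c') ∧ 2 ≤ ds r' c' ∧
            ds r' c' ≤ ds r' (c j) ∧ (ds r' (c j) ≠ 2 → ds r' c' < ds r' (c j)) := by
          intro j
          by_cases h2 : ds r' (c j) = 2
          · exact ⟨c j, Or.inl rfl, hD j, le_rfl, fun h => absurd h2 h⟩
          · obtain ⟨q, hq⟩ : ∃ q, df r' (c j) q ≠ 0 := by
              by_contra hcon
              push Not at hcon
              have : ds r' (c j) = 0 := by
                unfold ds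
                simp [hcon]
              have := hD j
              omega
            obtain ⟨x', hx1, hx2, hx3, hx4⟩ := reduce hq
            have := hD j
            exact ⟨x', Or.inr hx1, by omega, by omega, fun _ => by omega⟩
        choose c' h1 h2 h3 h4 using hex
        refine win_of_WR (f' := full c' (c' z)) ?_ ?_
          (ih _ (hle c' r' h3 ⟨j0, h4 j0 hj0⟩) c' r' rfl h2)
        · exact forall_full (p := fun y => 1 ≤ ds r' y) (fun j => by have := hD j; omega)
            (by have := hD z; omega)
        · exact forall_full2 (p := fun y y' => y' = y ∨ (grid m).Adj y y') h1 (h1 z)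
    · obtain ⟨l, e, hmv⟩ := adj_iff.1 hadj
      have hone : ∀ j, 1 ≤ ds r' (c j) := by
        intro j
        have h1 := hD j
        rcases lt_or_ge (df r (c j) l * e) 0 with h2 | h2
        · have := ds_toward hmv h2
          omega
        · have := ds_away hmv h2
          omega
      have hne : ∀ i, 1 ≤ ds r' (full c (c z) i) :=
        forall_full (p := fun y => 1 ≤ ds r' y) hone (hone z)
      by_cases ht : ∃ j, df r (c j) l * e < 0
      · by_cases ht2 : ∃ j, ds r' (c j) = 1
        · obtain ⟨j, hj⟩ := ht2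
          apply win_of_adj j.castSucc
          rw [full_cast]
          exact hj
        · push Not at ht2
          have hex : ∀ j, ∃ c', (c' = c j ∨ (grid m).Adj (c j) c') ∧ 2 ≤ ds r' c' ∧
              ds r' c' ≤ ds r (c j) ∧ (df r (c j) l * e < 0 → ds r' c' < ds r (c j)) := by
            intro j
            rcases lt_or_ge (df r (c j) l * e) 0 with h2 | h2
            · have h3 := ds_toward hmv h2
              have h4 := ht2 j
              have h5 := hone j
              exact ⟨c j, Or.inl rfl, by omega, by omega, fun _ => by omega⟩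
            · obtain ⟨x', hx1, hx2⟩ := follow hmv h2
              have h3 := ds_congr hx2
              have h4 := hD j
              exact ⟨x', Or.inr hx1, by omega, by omega, fun h => absurd h (not_lt.2 h2)⟩
          choose c' h1 h2 h3 h4 using hex
          obtain ⟨j0, hj0⟩ := ht
          exact win_of_WR (f' := full c' (c' z)) hne
            (forall_full2 (p := fun y y' => y' = y ∨ (grid m).Adj y y') h1 (h1 z))
            (ih _ (hle c' r' h3 ⟨j0, h4 j0 hj0⟩) c' r' rfl h2)
      · push Not at ht
        obtain ⟨c', h1, h2, h3, -⟩ := resp c hmv hD ht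
        refine win_of_WR (f' := full c' (c' z)) hne
          (forall_full2 (p := fun y y' => y' = y ∨ (grid m).Adj y y') (fun j => Or.inr (h1 j))
            (Or.inr (h1 z)))
          (ih _ ?_ c' r' rfl (fun j => by rw [h2]; exact hD j))
        rw [← hN, Finset.sum_congr rfl fun j _ => h2 j]
        omega

end U

open U in
/-- `⌈n/2⌉ + 1` cops win on every grid. -/
theorem upper (n : ℕ) (m : Fin n → ℕ) (hn : 1 ≤ n) (hm : ∀ i, 2 ≤ m i) :
    ∃ c : Fin ((n + 1) / 2 + 1) → (∀ i, Fin (m i)),
      ∀ r, (∃ i, c i = r) ∨ Win (grid m) Finset.univ c r := by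
  let v : ∀ i, Fin (m i) := fun i => ⟨0, by have := hm i; omega⟩
  refine ⟨fun _ => v, fun r => ?_⟩
  have z : Fin (gd n) := ⟨0, by unfold gd; omega⟩
  rcases Nat.lt_or_ge (ds r v) 2 with h | h
  · have h1 : ds r v = 0 ∨ ds r v = 1 := by omega
    rcases h1 with h1 | h1
    · left
      refine ⟨0, ?_⟩
      funext k
      unfold ds at h1
      rw [Finset.sum_eq_zero_iff] at h1
      have h2 := h1 k (Finset.mem_univ k)
      unfold df at h2
      apply Fin.ext
      show (v k : ℕ) = (r k : ℕ)
      omega
    · right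
      exact Win.catch' _ _ _ 0 (Finset.mem_univ _) (Or.inr (adj_of_ds h1))
  · right
    have h1 := winD z _ (fun _ => v) r rfl (fun _ => h)
    have h2 : full (fun _ : Fin (gd n) => v) v = fun _ => v := by
      funext i
      refine Fin.lastCases ?_ (fun j => ?_) i
      · rw [full_last]
      · rw [full_cast]
    rw [h2] at h1
    exact Win.step _ _ _ (fun _ => v) (fun i _ => Or.inl rfl) h1

end Pool.Agent.R888.AR
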